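import Pool.Agent.Helper3.EL.Defs

/-!
# Project EL, module H: pairings in terms of symbols
-/

set_option autoImplicit false
set_option linter.unusedSectionVars false

namespace Pool.Agent.Helper3.EL

open Finset Pool.Agent.Lead.TB Pool.Agent.Lead.TB.Halves Pool.Agent.Helper84.TL

namespace Transport

theorem ncl_congr {E E' : Type} (ψ : E ≃ E') {ρ γ : E → E} {ρ' γ' : E' → E'}
    (h1 : ∀ x, ψ (ρ x) = ρ' (ψ x)) (h2 : ∀ x, ψ (γ x) = γ' (ψ x)) : ncl ρ γ = ncl ρ' γ' := by
  refine Nat.card_congr (Quot.congr ψ fun a b => ?_)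
  rw [← h1, ← h2, ψ.injective.eq_iff, ψ.injective.eq_iff]

section

variable {n m : ℕ} {ι : Type} [Fintype ι] [DecidableEq ι] (side : ι → Bool)
  (f : ι → Equiv.Perm (Fin n))

theorem mem_un {r c : Fin n} : c ∈ un f r ↔ ∃ i, f i r = c := by
  simp [un]

theorem mem_unS {r c : Fin n} : c ∈ unS side f r ↔ ∃ i, side i = true ∧ f i r = c := by
  simp [unS]

variable (hf : ∀ i j, i ≠ j → ∀ r, f i r ≠ f j r)

include hf in
theorem f_inj {i j : ι} {r : Fin n} (h : f i r = f j r) : i = j := by
  by_contra hne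
  exact hf i j hne r h

/-- The columns of a row in terms of the indices. -/
noncomputable def phR (r : Fin n) : ι ≃ {c : Fin n // c ∈ un f r} :=
  Equiv.ofBijective (fun i => ⟨f i r, (mem_un f).2 ⟨i, rfl⟩⟩) (by
    constructor
    · intro i j h
      exact f_inj f hf (congrArg Subtype.val h)
    · rintro ⟨c, hc⟩
      obtain ⟨i, hi⟩ := (mem_un f).1 hc
      exact ⟨i, Subtype.ext hi⟩)

/-- The rows of a column in terms of the indices. -/
noncomputable def phC (c : Fin n) : ι ≃ {r : Fin n // c ∈ un f r} :=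
  Equiv.ofBijective (fun i => ⟨(f i).symm c, (mem_un f).2 ⟨i, by simp⟩⟩) (by
    constructor
    · intro i j h
      have h1 : (f i).symm c = (f j).symm c := congrArg Subtype.val h
      refine f_inj f hf (r := (f i).symm c) ?_
      rw [Equiv.apply_symm_apply, h1, Equiv.apply_symm_apply]
    · rintro ⟨r, hr⟩
      obtain ⟨i, hi⟩ := (mem_un f).1 hr
      refine ⟨i, Subtype.ext ?_⟩
      change (f i).symm c = r
      rw [Equiv.symm_apply_eq]
      exact hi.symm)

theorem phR_val (r : Fin n) (i : ι) : ((phR f hf r) i).1 = f i r := rfl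

theorem phC_val (c : Fin n) (i : ι) : ((phC f hf c) i).1 = (f i).symm c := rfl

/-- The edges in terms of the cells. -/
noncomputable def psi : Fin n × ι ≃ Ed (un f) :=
  Equiv.ofBijective (fun x => ⟨(x.1, f x.2 x.1), (mem_un f).2 ⟨x.2, rfl⟩⟩) (by
    constructor
    · rintro ⟨r, i⟩ ⟨r', j⟩ h
      have h1 : ((r, f i r) : Fin n × Fin n) = (r', f j r') := congrArg Subtype.val h
      rw [Prod.mk.injEq] at h1
      obtain ⟨rfl, h2⟩ := h1
      rw [f_inj f hf h2]
    · rintro ⟨⟨r, c⟩, hc⟩
      obtain ⟨i, hi⟩ := (mem_un f).1 hc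
      exact ⟨(r, i), Subtype.ext (Prod.ext rfl hi)⟩)

theorem psi_val (x : Fin n × ι) : ((psi f hf) x).1 = (x.1, f x.2 x.1) := rfl

/-- Systems of labellings in terms of the indices. -/
noncomputable def theta (m : ℕ) : ((Fin n → (ι ≃ Fin m × Bool)) × (Fin n → (ι ≃ Fin m × Bool))) ≃
    Lab (un f) m :=
  Equiv.prodCongr (Equiv.piCongrRight fun r => (phR f hf r).equivCongr (Equiv.refl _))
    (Equiv.piCongrRight fun c => (phC f hf c).equivCongr (Equiv.refl _))

theorem theta_fst (p : (Fin n → (ι ≃ Fin m × Bool)) × (Fin n → (ι ≃ Fin m × Bool))) (r : Fin n) :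
    (theta f hf m p).1 r = (phR f hf r).symm.trans (p.1 r) := rfl

theorem theta_snd (p : (Fin n → (ι ≃ Fin m × Bool)) × (Fin n → (ι ≃ Fin m × Bool))) (c : Fin n) :
    (theta f hf m p).2 c = (phC f hf c).symm.trans (p.2 c) := rfl

theorem par_trans {X Y : Type} (φ : Y ≃ X) (e : Y ≃ Fin m × Bool) (y : Y) :
    par (φ.symm.trans e) (φ y) = φ (par e y) := by
  simp [par]

theorem ncl_theta (p : (Fin n → (ι ≃ Fin m × Bool)) × (Fin n → (ι ≃ Fin m × Bool))) :
    ncl (mR p.1) (mC p.2 f) =
      ncl (parR (un f) (theta f hf m p)) (parC (un f) (theta f hf m p)) := by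
  refine ncl_congr (psi f hf) ?_ ?_
  · rintro ⟨r, i⟩
    apply Subtype.ext
    refine Prod.ext rfl ?_
    change f (par (p.1 r) i) r = (par ((theta f hf m p).1 r) ((phR f hf r) i)).1
    rw [theta_fst, par_trans]
    rfl
  · rintro ⟨r, i⟩
    have hx : (⟨r, (mem_un f).2 ⟨i, rfl⟩⟩ : {r' : Fin n // f i r ∈ un f r'}) =
        (phC f hf (f i r)) i := by
      apply Subtype.ext
      rw [phC_val, Equiv.symm_apply_apply]
    apply Subtype.ext
    refine Prod.ext ?_ ?_
    · change (f (par (p.2 (f i r)) i)).symm (f i r) =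
        (par ((theta f hf m p).2 (f i r)) ⟨r, (mem_un f).2 ⟨i, rfl⟩⟩).1
      rw [hx, theta_snd, par_trans]
      rfl
    · change f (par (p.2 (f i r)) i) ((f (par (p.2 (f i r)) i)).symm (f i r)) = f i r
      rw [Equiv.apply_symm_apply]

theorem inR_iff (r : Fin n) (i : ι) :
    (phR f hf r) i ∈ inR (un f) (unS side f) r ↔ side i = true := by
  rw [mem_inR, phR_val, mem_unS]
  constructor
  · rintro ⟨j, hj, h⟩
    rwa [← f_inj f hf h]
  · intro h
    exact ⟨i, h, rfl⟩

theorem inC_iff (c : Fin n) (i : ι) :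
    (phC f hf c) i ∈ inC (un f) (unS side f) c ↔ side i = true := by
  rw [mem_inC, phC_val, mem_unS]
  constructor
  · rintro ⟨j, hj, h⟩
    have h1 : f j ((f i).symm c) = f i ((f i).symm c) := by rw [h, Equiv.apply_symm_apply]
    rwa [← f_inj f hf h1]
  · intro h
    exact ⟨i, h, by simp⟩

theorem mem_com (p : (Fin n → (ι ≃ Fin m × Bool)) × (Fin n → (ι ≃ Fin m × Bool))) :
    theta f hf m p ∈ com (un f) m (unS side f) ↔ p ∈ sys n m side := by
  have key : ∀ a b : Bool, (a = true ↔ ¬ b = true) ↔ a ≠ b := by decide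
  rw [com, sys, mem_product, mem_product, Fintype.mem_piFinset, Fintype.mem_piFinset,
    Fintype.mem_piFinset, Fintype.mem_piFinset]
  refine and_congr (forall_congr' fun r => ?_) (forall_congr' fun c => ?_)
  · rw [labR, slab, mem_filter, mem_filter, theta_fst]
    refine and_congr (by simp) (forall_congr' fun i => ?_)
    rw [← key]
    change ((phR f hf r) ((p.1 r).symm (i, true)) ∈ _ ↔
      (phR f hf r) ((p.1 r).symm (i, false)) ∉ _) ↔ _
    rw [inR_iff, inR_iff]
  · rw [labC, slab, mem_filter, mem_filter, theta_snd]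
    refine and_congr (by simp) (forall_congr' fun i => ?_)
    rw [← key]
    change ((phC f hf c) ((p.2 c).symm (i, true)) ∈ _ ↔
      (phC f hf c) ((p.2 c).symm (i, false)) ∉ _) ↔ _
    rw [inC_iff, inC_iff]

end

end Transport

open Transport

theorem wK_eq {n m : ℕ} {ι : Type} [Fintype ι] [DecidableEq ι] (side : ι → Bool)
    (_hs : Fintype.card ι = 2 * m) (_hs' : (univ.filter fun i => side i = true).card = m)
    (f : ι → Equiv.Perm (Fin n)) (hf : ∀ i j, i ≠ j → ∀ r, f i r ≠ f j r) :
    wK m (un f) (unS side f) =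
      (∑ p ∈ sys n m side, (ncl (mR p.1) (mC p.2 f) : ℝ)) / (sys n m side).card := by
  have h1 : (com (un f) m (unS side f)) = (sys n m side).map (theta f hf m).toEmbedding := by
    ext l
    rw [mem_map_equiv, ← mem_com side f hf, Equiv.apply_symm_apply]
  unfold wK
  rw [h1, sum_map, card_map]
  congr 1
  refine sum_congr rfl fun p _ => ?_
  rw [ncl_theta f hf p]
  rfl

theorem sys_card_pos {ι : Type} [Fintype ι] [DecidableEq ι] (n m : ℕ) (side : ι → Bool)
    (hs : Fintype.card ι = 2 * m) (hs' : (univ.filter fun i => side i = true).card = m) :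
    0 < (sys n m side).card := by
  have h0 : 0 < (slab m side).card := by
    have h1 := h85_card_lab m hs (univ.filter fun i => side i = true) hs'
    have h2 : slab m side = (univ.filter fun e : ι ≃ Fin m × Bool => ∀ i : Fin m,
        (e.symm (i, true) ∈ (univ.filter fun i => side i = true) ↔
          e.symm (i, false) ∉ (univ.filter fun i => side i = true))) := by
      have key : ∀ a b : Bool, (a = true ↔ ¬ b = true) ↔ a ≠ b := by decide
      ext e
      simp only [slab, mem_filter, mem_univ, true_and, key]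
    rw [h2, h1]
    positivity
  rw [sys, card_product, Fintype.card_piFinset]
  simp only [prod_const, card_univ, Fintype.card_fin]
  positivity

end Pool.Agent.Helper3.EL
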