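import Pool.Agent.Helper84.EL.BoxOf
import Pool.Agent.Helper84.EL.Transport
import Pool.Agent.Helper5.EL.MpmFinal
import Pool.Agent.Helper71.EL.VdwOf
import Pool.Agent.Helper88.EL.PeelLow
import Pool.Agent.Helper56.EL.Node
import Pool.Agent.Helper66.EL.Tree
import Pool.Agent.Helper62.EL.GibbsT
import Pool.Agent.Helper28.EL.Rank
import Pool.Agent.Helper38.EL.LdFix
import Pool.Agent.Helper36.EL.LdCoreOf
import Pool.Agent.Helper72.EL.LdTree
import Pool.Agent.Helper8.EL.EmbAvg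
import Pool.Agent.Helper20.EL.Main

/-!
# Project EL, module Q: one box
-/

set_option autoImplicit false

namespace Pool.Agent.Helper3.EL

open Finset Pool.Agent.Lead.TB Pool.Agent.Lead.TB.Halves Pool.Agent.Helper84.TL

theorem vdw {n j : ℕ} (hj : 1 ≤ j) (G : Gr n) (hG : Reg j G) :
    Real.exp (n * (Real.log j - 1)) ≤ ((pm G).card : ℝ) :=
  vdw_of hj G fun _ _ _ h => mpm hj G hG h

theorem cls_low {n k c : ℕ} {L : Fin n → Equiv.Perm (Fin n)} (hL : L ∈ ls n)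
    (S : Finset (Fin n)) (hS : S.card = c + 2 ^ k) :
    n * ∑ j ∈ Icc (2 ^ k + 1) (c + 2 ^ k), (Real.log j - 1) + n * Real.log (KK k) ≤
      Real.log ((cls L S).card : ℝ) :=
  cls_low_of (fun _ hj G hG => vdw hj G hG) hL S hS

theorem ls_low {n : ℕ} :
    Real.exp (n * ∑ j ∈ Icc 1 n, (Real.log j - 1)) ≤ ((ls n).card : ℝ) :=
  ls_low_of fun _ hj G hG => vdw hj G hG

theorem ld_core {n m : ℕ} (hn : 1 ≤ n) {ι : Type} [Fintype ι] [DecidableEq ι] (side : ι → Bool)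
    {Ω : Type} [Fintype Ω] [Nonempty Ω] (lam : Ω → ι ↪ Fin n)
    (e e' : Ω → Fin n → (ι ≃ Fin m × Bool)) (he : ∀ w r x, side (par (e w r) x) ≠ side x)
    (he' : ∀ w r x, side (par (e' w r) x) ≠ side x) {κ : ℝ} (hκ : 0 < κ)
    (hκ' : ∀ s, ((univ.filter fun w => ∃ x, lam w x = s).card : ℝ) ≤ κ * Fintype.card Ω)
    (t : ℝ) :
    (((ls n).filter fun L => κ * t ≤
      (∑ w, (ncl (mR (e w)) (mC (e' w) fun x => L (lam w x)) : ℝ)) / Fintype.card Ω).card : ℝ) ≤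
      Real.exp (3 * n * (1 + Real.log n) ^ 2 - t) * ((ls n).card : ℝ) :=
  ld_core_of hn lam e e' hκ ls_low (fun hL s r F => rank_avg hL s r F)
    (fun ω => ld_fixed side lam e e' he he' hκ hκ' ω) t

theorem ld_tree {n k : ℕ} (hn : 1 ≤ n) {Ω : Type} [Fintype Ω] [Nonempty Ω]
    (lam : Ω → (Fin k → Bool) ↪ Fin n) {p : ℝ} (hp : 0 < p)
    (hp' : ∀ x s, ((univ.filter fun w => lam w x = s).card : ℝ) ≤ p * Fintype.card Ω) (t : ℝ) :
    (((ls n).filter fun L => (k : ℝ) * 2 ^ k * p * t <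
      (∑ w, tw k (fun x => L (lam w x))) / Fintype.card Ω).card : ℝ) ≤
      2 ^ k * Real.exp (3 * n * (1 + Real.log n) ^ 2 - t) * ((ls n).card : ℝ) :=
  ld_tree_of (by intro n m ι _ _ side hs hs' f hf; exact wK_eq side hs hs' f hf)
    (by intro ι _ _ n m side hs hs'; exact sys_card_pos n m side hs hs')
    (by
      intro n m hn ι _ _ side Ω _ _ lam e e' he he' κ hκ hκ' t
      exact ld_core hn side lam e e' he he' hκ hκ' t) hn lam hp hp' t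

theorem main_ineq {n k : ℕ} (T₁ T₂ T₃ : Finset (Fin n))
    (E : Finset (Fin n → Equiv.Perm (Fin n))) (hE : E ⊆ emp T₁ T₂ T₃) (hne : E.Nonempty)
    (hn : T₃.card + 2 ^ k ≤ n) (hc : T₃.card ≤ 2 ^ k) (B : ℝ)
    (hB : ∀ L ∈ E, (∑ e : Emb k T₃, tw k (fun x => L (sy e x))) / Fintype.card (Emb k T₃) ≤ B) :
    Real.log ((E.card : ℝ) / (ls n).card) ≤
      n * ∑ j ∈ Icc (2 ^ k + 1) (T₃.card + 2 ^ k), (Real.log (g j) - Real.log j + 1) -
      Real.log 2 * T₃.card / (T₃.card + 2 ^ k) *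
        (2 ^ k / ((n : ℝ) - T₃.card) * ((T₁.card : ℝ) * T₂.card)) + Real.log 2 * B :=
  main_ineq_of (fun _ _ hL S hS => cls_low hL S hS)
    (fun E hE lam => gibbs_tree_of (fun _ _ G hG => node G hG) E hE lam)
    (fun E T₁ T₂ T₃ Y hE hd hc hY => gibbs_T' E T₁ T₂ T₃ Y hE hd hc hY)
    (fun T₃ h => emb_card_pos T₃ h) (fun T₁ T₂ T₃ h _ hL => emb_cnt T₁ T₂ T₃ h hL)
    T₁ T₂ T₃ E hE hne hn hc B hB

theorem one_box {n : ℕ} (hn : 1 ≤ n) (T₁ T₂ T₃ : Finset (Fin n)) (h1 : 1 ≤ T₃.card)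
    (h2 : (T₃.card : ℝ) ≤ n / (100 * (1 + Real.log n) ^ 4)) :
    ((emp T₁ T₂ T₃).card : ℝ) ≤
      (Real.exp (2 * n - Real.log 2 / 2 * (T₁.card * T₂.card * T₃.card / n)) +
        Real.exp (-(7 * n))) * ((ls n).card : ℝ) :=
  one_box_of hn T₁ T₂ T₃ h1 h2
    (fun _ _ _ _ lam _ hp hp' t => ld_tree hn lam hp hp' t)
    (fun _ h x s => emb_prob T₃ h x s) (fun _ h => emb_card_pos T₃ h)
    (fun _ E hE hne hn hc B hB => main_ineq T₁ T₂ T₃ E hE hne hn hc B hB)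

end Pool.Agent.Helper3.EL
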