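import Pool.Agent.Helper3.EL.Defs
import Pool.Agent.Helper71.TL.LogSOf
import Pool.Agent.Helper70.TB.GFun

/-!
# Project EL, module Q: one box (numerics)
-/

set_option autoImplicit false

namespace Pool.Agent.Helper3.EL

open Finset Pool.Agent.Lead.TB Pool.Agent.Lead.TB.Halves Pool.Agent.Helper84.TL

namespace BoxAux

theorem one_le_log {n : ℕ} (_hn : 1 ≤ n) : (1 : ℝ) ≤ 1 + Real.log n := by
  have := Real.log_natCast_nonneg n
  linarith

/-- The size of the random set of symbols. -/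
theorem exists_k {x : ℝ} (hx : 1 ≤ x) : ∃ k : ℕ, x ≤ (2 : ℝ) ^ k ∧ (2 : ℝ) ^ k ≤ 2 * x := by
  obtain ⟨i, h1, h2⟩ := exists_nat_pow_near hx (one_lt_two)
  exact ⟨i + 1, h2.le, by rw [pow_succ]; linarith⟩

theorem g_term {j : ℕ} (hj : 1 ≤ j) :
    Real.log (g j) - Real.log j + 1 ≤ (1 + Real.log j / 2) / j := by
  have h := GF.fact_up j hj
  have hj' : (0 : ℝ) < j := by exact_mod_cast hj
  have e : Real.log (g j) = (1 / (j : ℝ)) * Real.log (j.factorial : ℝ) := LogSAux.log_g j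
  rw [e, le_div_iff₀ hj']
  have e2 : (1 / (j : ℝ) * Real.log (j.factorial : ℝ) - Real.log j + 1) * j =
      Real.log (j.factorial : ℝ) - j * Real.log j + j := by
    field_simp
  rw [e2]
  linarith

/-- The loss of the symbols of `T₃`. -/
theorem loss_le {n c k : ℕ} (hc : 1 ≤ c) (hn : c + 2 ^ k ≤ n)
    (hk : (c : ℝ) * (1 + Real.log n) ≤ (2 : ℝ) ^ k) :
    ∑ j ∈ Icc (2 ^ k + 1) (c + 2 ^ k), (Real.log (g j) - Real.log j + 1) ≤ 1 := by
  have hc' : (0 : ℝ) < c := by exact_mod_cast hc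
  have hl : (0 : ℝ) ≤ Real.log n := Real.log_natCast_nonneg n
  have h1 : ∀ j ∈ Icc (2 ^ k + 1) (c + 2 ^ k), Real.log (g j) - Real.log j + 1 ≤ 1 / (c : ℝ) := by
    intro j hj
    rw [mem_Icc] at hj
    have hp := Nat.one_le_two_pow (n := k)
    have hj1 : 1 ≤ j := by omega
    have hj0 : (0 : ℝ) < j := by exact_mod_cast hj1
    refine (g_term hj1).trans ?_
    rw [div_le_div_iff₀ hj0 hc']
    have h2 : Real.log j ≤ Real.log n :=
      Real.log_le_log hj0 (by exact_mod_cast (show j ≤ n by omega))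
    have h3 : (2 : ℝ) ^ k ≤ j := by
      have : 2 ^ k ≤ j := by omega
      exact_mod_cast this
    have h4 : (c : ℝ) * (1 + Real.log n) ≤ j := hk.trans h3
    have h5 : (1 + Real.log j / 2) * (c : ℝ) ≤ (1 + Real.log n) * c := by
      gcongr
      linarith
    linarith
  calc ∑ j ∈ Icc (2 ^ k + 1) (c + 2 ^ k), (Real.log (g j) - Real.log j + 1)
      ≤ ∑ _j ∈ Icc (2 ^ k + 1) (c + 2 ^ k), 1 / (c : ℝ) := sum_le_sum h1
    _ = 1 := by
        rw [sum_const, Nat.card_Icc, nsmul_eq_mul]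
        have : c + 2 ^ k + 1 - (2 ^ k + 1) = c := by omega
        rw [this]
        field_simp

/-- The gain. -/
theorem gain_le {n c X K : ℝ} (hc : 0 < c) (hX : 0 ≤ X) (hcK : c ≤ K) (hcn : c < n) :
    Real.log 2 / 2 * (X * c / n) ≤
      Real.log 2 * c / (c + K) * (K / (n - c) * X) := by
  have hK : 0 < K := lt_of_lt_of_le hc hcK
  have hn : 0 < n := hc.trans hcn
  have hl : 0 < Real.log 2 := Real.log_pos (by norm_num)
  have h1 : 1 / 2 ≤ K / (c + K) := by
    rw [div_le_div_iff₀ (by norm_num) (by positivity)]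
    linarith
  have h2 : 1 / n ≤ 1 / (n - c) := by
    apply one_div_le_one_div_of_le (by linarith)
    linarith
  calc Real.log 2 / 2 * (X * c / n) = Real.log 2 * (X * c) * ((1 / 2) * (1 / n)) := by ring
    _ ≤ Real.log 2 * (X * c) * (K / (c + K) * (1 / (n - c))) := by gcongr
    _ = _ := by ring

end BoxAux

open BoxAux

/-- EL-Q with the statements of EL-N, EL-O and EL-P as hypotheses. -/
theorem one_box_of {n : ℕ} (hn : 1 ≤ n) (T₁ T₂ T₃ : Finset (Fin n)) (h1 : 1 ≤ T₃.card)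
    (h2 : (T₃.card : ℝ) ≤ n / (100 * (1 + Real.log n) ^ 4))
    (ld_tree : ∀ (k : ℕ) (Ω : Type) [Fintype Ω] [Nonempty Ω]
      (lam : Ω → (Fin k → Bool) ↪ Fin n) (p : ℝ), 0 < p →
      (∀ x s, ((univ.filter fun w => lam w x = s).card : ℝ) ≤ p * Fintype.card Ω) → ∀ t : ℝ,
      (((ls n).filter fun L => (k : ℝ) * 2 ^ k * p * t <
        (∑ w, tw k (fun x => L (lam w x))) / Fintype.card Ω).card : ℝ) ≤
        2 ^ k * Real.exp (3 * n * (1 + Real.log n) ^ 2 - t) * ((ls n).card : ℝ))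
    (emb_prob : ∀ (k : ℕ), T₃.card < n → ∀ (x : Fin k → Bool) (s : Fin n),
      ((univ.filter fun e : Emb k T₃ => sy e x = s).card : ℝ) ≤
        1 / ((n : ℝ) - T₃.card) * Fintype.card (Emb k T₃))
    (emb_card_pos : ∀ k : ℕ, T₃.card + 2 ^ k ≤ n → 0 < Fintype.card (Emb k T₃))
    (main_ineq : ∀ (k : ℕ) (E : Finset (Fin n → Equiv.Perm (Fin n))), E ⊆ emp T₁ T₂ T₃ →
      E.Nonempty → T₃.card + 2 ^ k ≤ n → T₃.card ≤ 2 ^ k → ∀ B : ℝ,
      (∀ L ∈ E, (∑ e : Emb k T₃, tw k (fun x => L (sy e x))) / Fintype.card (Emb k T₃) ≤ B) →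
      Real.log ((E.card : ℝ) / (ls n).card) ≤
        n * ∑ j ∈ Icc (2 ^ k + 1) (T₃.card + 2 ^ k), (Real.log (g j) - Real.log j + 1) -
        Real.log 2 * T₃.card / (T₃.card + 2 ^ k) *
          (2 ^ k / ((n : ℝ) - T₃.card) * ((T₁.card : ℝ) * T₂.card)) + Real.log 2 * B) :
    ((emp T₁ T₂ T₃).card : ℝ) ≤
      (Real.exp (2 * n - Real.log 2 / 2 * (T₁.card * T₂.card * T₃.card / n)) +
        Real.exp (-(7 * n))) * ((ls n).card : ℝ) := by
  classical
  set c := T₃.card with hcdef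
  set l : ℝ := 1 + Real.log n with hl
  have hc' : (1 : ℝ) ≤ c := by exact_mod_cast h1
  have hn' : (1 : ℝ) ≤ n := by exact_mod_cast hn
  have hl1 : 1 ≤ l := one_le_log hn
  have hl0 : 0 < l := by linarith
  have hlog2 : 0 < Real.log 2 := Real.log_pos (by norm_num)
  have hlog2' : Real.log 2 < 0.7 := by
    have := Real.log_two_lt_d9
    linarith
  have hlog2'' : 0.69 < Real.log 2 := by
    have := Real.log_two_gt_d9
    linarith
  -- the size of `c`
  have hc4 : 100 * ((c : ℝ) * l ^ 4) ≤ n := by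
    rw [le_div_iff₀ (by positivity)] at h2
    linarith
  have hl4 : (1 : ℝ) ≤ l ^ 4 := one_le_pow₀ hl1
  have hl3 : (1 : ℝ) ≤ l ^ 3 := one_le_pow₀ hl1
  have hcl : 100 * ((c : ℝ) * l) ≤ n := by
    have : (c : ℝ) * l * 1 ≤ c * l * l ^ 3 := by gcongr
    have e : (c : ℝ) * l * l ^ 3 = c * l ^ 4 := by ring
    linarith
  have hc1 : 100 * (c : ℝ) ≤ n := by
    have : (c : ℝ) * 1 ≤ c * l := by gcongr
    linarith
  obtain ⟨k, hk1, hk2⟩ := exists_k (x := (c : ℝ) * l) (by nlinarith)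
  have hck : c ≤ 2 ^ k := by
    have : (c : ℝ) ≤ 2 ^ k := by
      have : (c : ℝ) * 1 ≤ c * l := by gcongr
      linarith
    exact_mod_cast this
  have hckn : c + 2 ^ k ≤ n := by
    have : (c : ℝ) + 2 ^ k ≤ n := by linarith
    exact_mod_cast this
  have hcn : c < n := by
    have := Nat.one_le_two_pow (n := k)
    omega
  have hcn' : (c : ℝ) < n := by exact_mod_cast hcn
  have hnc : 0 < (n : ℝ) - c := by linarith
  -- the exponent
  have hkl : (k : ℝ) ≤ 1.5 * l := by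
    have h3 : (2 : ℝ) ^ k ≤ n := by linarith
    have h4 : Real.log ((2 : ℝ) ^ k) ≤ Real.log n := Real.log_le_log (by positivity) h3
    rw [Real.log_pow] at h4
    have h5 : (k : ℝ) * 0.69 ≤ k * Real.log 2 := by gcongr
    have h6 : (0 : ℝ) ≤ k := Nat.cast_nonneg k
    linarith
  set p : ℝ := 1 / ((n : ℝ) - c) with hp
  have hp0 : 0 < p := by positivity
  set t : ℝ := 3 * n * l ^ 2 + 8 * n with ht
  have htp : p * t ≤ 12 * l ^ 2 := by
    rw [hp, ht, one_div, inv_mul_le_iff₀ hnc]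
    have h3 : (1 : ℝ) ≤ l ^ 2 := one_le_pow₀ hl1
    have h4 : 8 * (n : ℝ) ≤ 8 * n * l ^ 2 := by nlinarith
    have h5 : 12 * (c : ℝ) * l ^ 2 ≤ 0.12 * n * l ^ 2 := by
      have : 12 * (c : ℝ) ≤ 0.12 * n := by linarith
      gcongr
    have h6 : 0 ≤ (n : ℝ) * l ^ 2 := by positivity
    nlinarith
  set B : ℝ := (k : ℝ) * 2 ^ k * p * t with hB
  have hBn : B ≤ n := by
    have h3 : B ≤ 1.5 * l * (2 * (c * l)) * (12 * l ^ 2) := by
      rw [hB, mul_assoc ((k : ℝ) * 2 ^ k)]
      gcongr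
    have h4 : 1.5 * l * (2 * ((c : ℝ) * l)) * (12 * l ^ 2) = 36 * (c * l ^ 4) := by ring
    rw [h4] at h3
    have h5 : 0 ≤ (c : ℝ) * l ^ 4 := by positivity
    linarith
  -- the two parts
  have hne : Nonempty (Emb k T₃) := Fintype.card_pos_iff.1 (emb_card_pos k hckn)
  set A : (Fin n → Equiv.Perm (Fin n)) → ℝ := fun L =>
    (∑ e : Emb k T₃, tw k (fun x => L (sy e x))) / Fintype.card (Emb k T₃) with hA
  set E := (emp T₁ T₂ T₃).filter fun L => A L ≤ B with hE
  have hsplit : ((emp T₁ T₂ T₃).card : ℝ) ≤ (E.card : ℝ) +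
      (((ls n).filter fun L => B < A L).card : ℝ) := by
    have h3 : emp T₁ T₂ T₃ ⊆ E ∪ (ls n).filter fun L => B < A L := by
      intro L hL
      rw [mem_union, hE, mem_filter, mem_filter]
      rcases le_or_gt (A L) B with h | h
      · exact Or.inl ⟨hL, h⟩
      · exact Or.inr ⟨(mem_filter.1 hL).1, h⟩
    have h4 := (card_le_card h3).trans (card_union_le _ _)
    exact_mod_cast h4
  have hbad : (((ls n).filter fun L => B < A L).card : ℝ) ≤
      Real.exp (-(7 * n)) * ((ls n).card : ℝ) := by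
    have h3 := ld_tree k (Emb k T₃) (fun e => sy e) p hp0 (emb_prob k hcn) t
    refine h3.trans ?_
    gcongr
    have h4 : (2 : ℝ) ^ k ≤ Real.exp n := by
      have h5 := Real.add_one_le_exp (n : ℝ)
      linarith
    calc (2 : ℝ) ^ k * Real.exp (3 * n * l ^ 2 - t) ≤
        Real.exp n * Real.exp (3 * n * l ^ 2 - t) := by gcongr
      _ = Real.exp (-(7 * n)) := by
          rw [← Real.exp_add]
          congr 1
          rw [ht]
          ring
  have hgood : (E.card : ℝ) ≤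
      Real.exp (2 * n - Real.log 2 / 2 * (T₁.card * T₂.card * c / n)) * ((ls n).card : ℝ) := by
    rcases E.eq_empty_or_nonempty with h0 | h0
    · rw [h0, card_empty, Nat.cast_zero]
      positivity
    · have hEsub : E ⊆ emp T₁ T₂ T₃ := filter_subset _ _
      have hlspos : 0 < ((ls n).card : ℝ) := by
        obtain ⟨L, hL⟩ := h0
        have : 0 < (ls n).card := card_pos.2 ⟨L, (mem_filter.1 (hEsub hL)).1⟩
        exact_mod_cast this
      have hEpos : 0 < (E.card : ℝ) := by exact_mod_cast card_pos.2 h0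
      have h3 := main_ineq k E hEsub h0 hckn hck B (fun L hL => (mem_filter.1 hL).2)
      have h4 := loss_le h1 hckn hk1
      have h5 : (n : ℝ) * ∑ j ∈ Icc (2 ^ k + 1) (c + 2 ^ k), (Real.log (g j) - Real.log j + 1) ≤
          n * 1 := by gcongr
      have h6 := gain_le (n := n) (c := c) (X := (T₁.card : ℝ) * T₂.card) (K := 2 ^ k)
        (by linarith) (by positivity) (by exact_mod_cast hck) hcn'
      have h7 : Real.log 2 * B ≤ 1 * n := by
        have hB0 : 0 ≤ B := by positivity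
        have : Real.log 2 * B ≤ 1 * B := by
          gcongr
          linarith
        linarith
      have h8 : Real.log ((E.card : ℝ) / (ls n).card) ≤
          2 * n - Real.log 2 / 2 * (T₁.card * T₂.card * c / n) := by linarith
      rw [Real.log_le_iff_le_exp (by positivity), div_le_iff₀ hlspos] at h8
      exact h8
  calc ((emp T₁ T₂ T₃).card : ℝ) ≤ (E.card : ℝ) +
      (((ls n).filter fun L => B < A L).card : ℝ) := hsplit
    _ ≤ _ := add_le_add hgood hbad
    _ = _ := by ring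

end Pool.Agent.Helper3.EL
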